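import Pool.Agent.Lib_MP_047497_nt.PartA4
import Pool.Agent.Lib_MP_047497_nt.PartB4
import Pool.Agent.Lib_MP_047497_nt.PartC2
set_option autoImplicit false
open Complex MeasureTheory Set Filter Asymptotics
open scoped Topology

namespace Pool.Agent.Results.MP_047497_nt.LiouvilleWeights
open Pool.Agent.MP_047497_nt

/-- **Disproof of the moment bound for Barnes multiple zeta-functions.**
Let `r ≥ 2`, `a > 0`, let `L > 0` be a Liouville number and `w = (1, L, …, L^{r-1})`, so that the
`ℚ`-span of the weights has dimension `d = r`.  The meromorphic continuation `Z` of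
`ζ_r(s; a, w)` exists, and for every `k ≥ 1`, every `σ` with `r - 1 < σ < r - 1/2`
(all of these satisfy `σ > r/2 = r - d/2`) and every `0 < ε < k (2r - 1 - 2σ)` the moment
`∫_1^T |Z(σ + it)|^{2k} dt` is not `O(T^{1+ε})` as `T → ∞`. -/
theorem result (r : ℕ) (hr : 2 ≤ r) (a : ℝ) (ha : 0 < a) (L : ℝ) (hL : Liouville L)
    (hpos : 0 < L) :
    Module.finrank ℚ (Submodule.span ℚ (Set.range fun i : Fin r => L ^ (i : ℕ))) = r ∧
    (∃ Z, IsBarnesZeta r a (fun i : Fin r => L ^ (i : ℕ)) Z) ∧
    ∀ Z, IsBarnesZeta r a (fun i : Fin r => L ^ (i : ℕ)) Z →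
      ∀ (k : ℕ) (σ ε : ℝ), 1 ≤ k → (r : ℝ) - 1 < σ → 0 < ε → ε < k * (2 * r - 1 - 2 * σ) →
        ¬ ((fun T : ℝ => ∫ t in (1:ℝ)..T, ‖Z (σ + t * I)‖ ^ (2 * k)) =O[atTop]
          fun T : ℝ => T ^ (1 + ε)) := by
  have hw : ∀ i : Fin r, 0 < L ^ (i : ℕ) := fun i => by positivity
  refine ⟨finrank_pow_liouville hL, exists_isBarnesZeta r a ha _ hw, ?_⟩
  intro Z hZ k σ ε hk hσ hε hεk hO
  have hr' : (2 : ℝ) ≤ r := by exact_mod_cast hr
  have hk' : (1 : ℝ) ≤ k := by exact_mod_cast hk
  have hpos' : 0 < (k : ℝ) * (2 * r - 1 - 2 * σ) := hε.trans hεk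
  have hσ' : 0 < 2 * (r : ℝ) - 1 - 2 * σ := by
    by_contra hcon
    push Not at hcon
    have : (k : ℝ) * (2 * r - 1 - 2 * σ) ≤ 0 := mul_nonpos_of_nonneg_of_nonpos (by linarith) hcon
    linarith
  have hre : ∀ t : ℝ, ((σ : ℂ) + t * I).re = σ := by intro t; simp
  have hstrip : ∀ t : ℝ, _ := fun t : ℝ =>
    strip_formula r a ha _ hw hZ ((σ : ℂ) + t * I) (by rw [hre]; linarith) (by rw [hre]; exact hσ)
      (by rw [hre]; linarith)
  refine no_bound_of_liouville (r := r) (by omega) ha hL hpos (σ := σ)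
    (β := σ + 1 / 2 + ε / (2 * k)) (by linarith) ?_ ?_
  · have : ε / (2 * k) < (2 * r - 1 - 2 * σ) / 2 := by
      rw [div_lt_div_iff₀ (by linarith) (by norm_num)]
      nlinarith
    linarith
  · refine rotated_bound (Z := Z) (subF_differentiableOn r a _ hw)
      (fun x _ => subF_ofReal_im r a _ x) (by linarith) ?_ (fun t => (hstrip t).2) ?_ hk hε hO
    · have := (hstrip 0).1
      simpa using this
    · rw [continuous_iff_continuousAt]
      intro t
      have hd : DifferentiableAt ℂ Z ((σ : ℂ) + t * I) := by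
        apply hZ.differentiableAt
        intro j hj1 hj2 h
        have h' := congrArg Complex.re h
        rw [hre] at h'
        simp only [natCast_re] at h'
        have h3 : (r : ℝ) - 1 < j := by rw [← h']; exact hσ
        have h4 : (j : ℝ) < r := by rw [← h']; linarith
        have h5 : (r : ℝ) < j + 1 := by linarith
        have h6 : j < r := by exact_mod_cast h4
        have h7 : r < j + 1 := by exact_mod_cast h5
        omega
      exact ContinuousAt.comp (f := fun t : ℝ => (σ : ℂ) + t * I) hd.continuousAt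
        (by fun_prop)

end Pool.Agent.Results.MP_047497_nt.LiouvilleWeights
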